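import Pool.Agent.Q127.ET.Spec

/-! Bounds for the local coefficients (lemma job ET1a of the project ET of helper127). -/

set_option autoImplicit false

open Finset MeasureTheory

namespace Pool.Agent.Q251.ET

open Pool.Agent.Q127.ET

theorem Uc_zero (y : ℝ) : Uc y 0 = 0 := rfl
theorem Uc_one (y : ℝ) : Uc y 1 = 1 := rfl
theorem Uc_succ (y : ℝ) (n : ℕ) : Uc y (n + 2) = y * Uc y (n + 1) - Uc y n := rfl

theorem Uc_inv (y : ℝ) (n : ℕ) :
    Uc y (n + 1) ^ 2 - y * Uc y (n + 1) * Uc y n + Uc y n ^ 2 = 1 := by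
  induction n with
  | zero => rw [Uc_zero, Uc_one]; ring
  | succ n ih =>
    rw [Uc_succ]
    linear_combination ih

theorem Uc_le {y : ℝ} (hy : |y| ≤ 2) (j : ℕ) : |Uc y j| ≤ j := by
  induction j with
  | zero => simp [Uc_zero]
  | succ n ih =>
    have h1 := Uc_inv y n
    have h2 : y * Uc y (n + 1) * Uc y n ≤ 2 * |Uc y (n + 1)| * |Uc y n| := by
      refine (le_abs_self _).trans ?_
      rw [abs_mul, abs_mul]
      exact mul_le_mul_of_nonneg_right (mul_le_mul_of_nonneg_right hy (abs_nonneg _)) (abs_nonneg _)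
    have h3 : (|Uc y (n + 1)| - |Uc y n|) ^ 2 ≤ 1 := by
      have e1 := sq_abs (Uc y (n + 1))
      have e2 := sq_abs (Uc y n)
      nlinarith
    have h4 := (abs_le.1 ((sq_le_one_iff_abs_le_one _).1 h3)).2
    push_cast
    linarith

theorem Uc_sub {y y' : ℝ} (hy : |y| ≤ 2) (hy' : |y'| ≤ 2) (j : ℕ) :
    |Uc y j - Uc y' j| ≤ 4 ^ j * |y - y'| ∧ |Uc y (j + 1) - Uc y' (j + 1)| ≤ 4 ^ (j + 1) * |y - y'| := by
  induction j with
  | zero =>
    rw [Uc_zero, Uc_zero, Uc_one, Uc_one, sub_self, sub_self, abs_zero]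
    constructor <;> positivity
  | succ n ih =>
    refine ⟨ih.2, ?_⟩
    have e : Uc y (n + 1 + 1) - Uc y' (n + 1 + 1) = y * (Uc y (n + 1) - Uc y' (n + 1)) +
        (y - y') * Uc y' (n + 1) - (Uc y n - Uc y' n) := by
      rw [Uc_succ, Uc_succ]
      ring
    have h1 : |y * (Uc y (n + 1) - Uc y' (n + 1))| ≤ 2 * (4 ^ (n + 1) * |y - y'|) := by
      rw [abs_mul]
      exact mul_le_mul hy ih.2 (abs_nonneg _) (by norm_num)
    have h2 : |(y - y') * Uc y' (n + 1)| ≤ |y - y'| * ((n + 1 : ℕ) : ℝ) := by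
      rw [abs_mul]
      exact mul_le_mul_of_nonneg_left (Uc_le hy' _) (abs_nonneg _)
    have h3 : ((n + 1 : ℕ) : ℝ) ≤ 4 ^ (n + 1) := by
      have : n + 1 < 4 ^ (n + 1) := Nat.lt_pow_self (by norm_num)
      exact_mod_cast this.le
    rw [e]
    calc |y * (Uc y (n + 1) - Uc y' (n + 1)) + (y - y') * Uc y' (n + 1) - (Uc y n - Uc y' n)|
        ≤ |y * (Uc y (n + 1) - Uc y' (n + 1))| + |(y - y') * Uc y' (n + 1)| +
          |Uc y n - Uc y' n| := by
          refine (abs_sub _ _).trans ?_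
          have := abs_add_le (y * (Uc y (n + 1) - Uc y' (n + 1))) ((y - y') * Uc y' (n + 1))
          linarith
      _ ≤ 2 * (4 ^ (n + 1) * |y - y'|) + |y - y'| * 4 ^ (n + 1) + 4 ^ n * |y - y'| := by
          have := mul_le_mul_of_nonneg_left h3 (abs_nonneg (y - y'))
          linarith [ih.1]
      _ ≤ 4 ^ (n + 1 + 1) * |y - y'| := by
          have h4 : (0 : ℝ) ≤ 4 ^ n * |y - y'| := by positivity
          have e1 : (4 : ℝ) ^ (n + 1 + 1) * |y - y'| = 16 * (4 ^ n * |y - y'|) := by ring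
          have e2 : (4 : ℝ) ^ (n + 1) * |y - y'| = 4 * (4 ^ n * |y - y'|) := by ring
          rw [e1, e2, mul_comm |y - y'|, e2]
          linarith

theorem y0_le (m : ℕ) : |y0 m| ≤ 1 := by
  have hm : (0 : ℝ) < 4 * m + 3 := by positivity
  have h1 : 2 * Real.pi * (m + 1) / (4 * m + 3) = Real.pi / (2 * (4 * m + 3)) + Real.pi / 2 := by
    field_simp
    ring
  have h2 : 0 ≤ Real.pi / (2 * (4 * (m : ℝ) + 3)) := by positivity
  have h3 : Real.pi / (2 * (4 * (m : ℝ) + 3)) ≤ Real.pi / 6 := by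
    apply div_le_div_of_nonneg_left Real.pi_pos.le (by norm_num)
    have : (0 : ℝ) ≤ m := by positivity
    linarith
  unfold y0
  rw [h1, Real.cos_add_pi_div_two]
  have h4 : 0 ≤ Real.sin (Real.pi / (2 * (4 * (m : ℝ) + 3))) :=
    Real.sin_nonneg_of_nonneg_of_le_pi h2 (by linarith [Real.pi_pos])
  have h5 : Real.sin (Real.pi / (2 * (4 * (m : ℝ) + 3))) ≤ Real.sin (Real.pi / 6) :=
    Real.sin_le_sin_of_le_of_le_pi_div_two (by linarith [Real.pi_pos]) (by linarith [Real.pi_pos]) h3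
  rw [Real.sin_pi_div_six] at h5
  rw [abs_le]
  constructor <;> linarith

theorem y0_add {m : ℕ} {x : ℝ} (hx : |x| ≤ 1) : |y0 m + x| ≤ 2 := by
  have := abs_add_le (y0 m) x
  linarith [y0_le m]

theorem hl_zero (m : ℕ) (x : ℝ) : hl m x 0 = 1 := if_pos rfl

theorem hl_ne (m : ℕ) (x : ℝ) {j : ℕ} (hj : j ≠ 0) : hl m x j = x * Uc (y0 m + x) j := if_neg hj

theorem hl_le {m : ℕ} {x : ℝ} (hx : |x| ≤ 1) (j : ℕ) : |hl m x j| ≤ j + 1 := by
  by_cases hj : j = 0
  · subst hj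
    rw [hl_zero]
    simp
  · rw [hl_ne m x hj, abs_mul]
    calc |x| * |Uc (y0 m + x) j| ≤ 1 * j :=
          mul_le_mul hx (Uc_le (y0_add hx) j) (abs_nonneg _) (by norm_num)
      _ ≤ j + 1 := by linarith

theorem hl_sub_zero {m : ℕ} {x : ℝ} (hx : |x| ≤ 1) (j : ℕ) : |hl m x j - hl m 0 j| ≤ j * |x| := by
  by_cases hj : j = 0
  · subst hj
    rw [hl_zero, hl_zero]
    simp
  · rw [hl_ne m x hj, hl_ne m 0 hj, zero_mul, sub_zero, abs_mul, mul_comm]
    exact mul_le_mul_of_nonneg_right (Uc_le (y0_add hx) j) (abs_nonneg _)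

theorem hl_sub {m : ℕ} {x x' : ℝ} (hx : |x| ≤ 1) (hx' : |x'| ≤ 1) (j : ℕ) :
    |hl m x j - hl m x' j| ≤ 2 * 4 ^ j * |x - x'| := by
  by_cases hj : j = 0
  · subst hj
    rw [hl_zero, hl_zero, sub_self, abs_zero]
    positivity
  · rw [hl_ne m x hj, hl_ne m x' hj]
    have e : x * Uc (y0 m + x) j - x' * Uc (y0 m + x') j = (x - x') * Uc (y0 m + x) j +
        x' * (Uc (y0 m + x) j - Uc (y0 m + x') j) := by ring
    have h1 := Uc_le (y0_add (m := m) hx) j
    have h2 := (Uc_sub (y0_add (m := m) hx) (y0_add (m := m) hx') j).1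
    have e2 : y0 m + x - (y0 m + x') = x - x' := by ring
    rw [e2] at h2
    have h3 : (j : ℝ) ≤ 4 ^ j := by
      have : j < 4 ^ j := Nat.lt_pow_self (by norm_num)
      exact_mod_cast this.le
    rw [e]
    refine (abs_add_le _ _).trans ?_
    rw [abs_mul, abs_mul]
    have h4 : |x - x'| * |Uc (y0 m + x) j| ≤ |x - x'| * 4 ^ j :=
      mul_le_mul_of_nonneg_left (h1.trans h3) (abs_nonneg _)
    have h5 : |x'| * |Uc (y0 m + x) j - Uc (y0 m + x') j| ≤ 1 * (4 ^ j * |x - x'|) :=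
      mul_le_mul hx' h2 (abs_nonneg _) (by norm_num)
    linarith

theorem cnt_le (m k : ℕ) (hk : 1 ≤ k) : 2 * (k / (4 * m + 3) + 1) ≤ 2 ^ k := by
  have h1 : k / (4 * m + 3) ≤ k / 3 := Nat.div_le_div_left (by omega) (by norm_num)
  have h2 : k < 2 ^ k := Nat.lt_two_pow_self
  omega

theorem cnt_le' (m k : ℕ) : k / (4 * m + 3) + 1 ≤ k + 1 :=
  Nat.add_le_add_right (Nat.div_le_self _ _) 1

theorem Al_zero (m : ℕ) (x : ℝ) : Al m x 0 = 1 := by
  unfold Al
  rw [Nat.zero_div, zero_add, Finset.sum_range_one, zero_mul, Nat.sub_zero, hl_zero]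

theorem Al_one (m : ℕ) (x : ℝ) : Al m x 1 = x := by
  unfold Al
  rw [Nat.div_eq_of_lt (by omega), zero_add, Finset.sum_range_one, zero_mul, Nat.sub_zero,
    hl_ne m x one_ne_zero, Uc_one, mul_one]

theorem Al_at_zero (m k : ℕ) : Al m 0 k = if (4 * m + 3) ∣ k then 1 else 0 := by
  unfold Al
  have h1 : ∀ i ∈ Finset.range (k / (4 * m + 3) + 1), hl m 0 (k - i * (4 * m + 3)) =
      if i * (4 * m + 3) = k then 1 else 0 := by
    intro i hi
    rw [Finset.mem_range, Nat.lt_succ_iff, Nat.le_div_iff_mul_le (by omega)] at hi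
    by_cases h : i * (4 * m + 3) = k
    · rw [if_pos h, h, Nat.sub_self, hl_zero]
    · rw [if_neg h, hl_ne m 0 (by omega), zero_mul]
  rw [Finset.sum_congr rfl h1]
  split_ifs with h
  · obtain ⟨q, rfl⟩ := h
    have h2 : ∀ i ∈ Finset.range ((4 * m + 3) * q / (4 * m + 3) + 1),
        (if i * (4 * m + 3) = (4 * m + 3) * q then (1 : ℝ) else 0) = if i = q then 1 else 0 := by
      intro i _
      congr 1
      rw [mul_comm i, Nat.mul_right_inj (by omega)]
    rw [Finset.sum_congr rfl h2, Finset.sum_ite_eq', if_pos]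
    rw [Finset.mem_range, Nat.mul_div_cancel_left _ (by omega)]
    omega
  · apply Finset.sum_eq_zero
    intro i _
    rw [if_neg]
    rintro rfl
    exact h (dvd_mul_left _ _)

theorem Al_le {m : ℕ} {x : ℝ} (hx : |x| ≤ 1) (k : ℕ) : |Al m x k| ≤ ((k : ℝ) + 1) ^ 2 := by
  unfold Al
  refine (Finset.abs_sum_le_sum_abs _ _).trans ?_
  have h1 : ∀ i ∈ Finset.range (k / (4 * m + 3) + 1), |hl m x (k - i * (4 * m + 3))| ≤ (k : ℝ) + 1 := by
    intro i _
    refine (hl_le hx _).trans ?_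
    have : ((k - i * (4 * m + 3) : ℕ) : ℝ) ≤ k := by exact_mod_cast Nat.sub_le _ _
    linarith
  refine (Finset.sum_le_card_nsmul _ _ _ h1).trans ?_
  rw [Finset.card_range, nsmul_eq_mul, sq]
  refine mul_le_mul_of_nonneg_right ?_ (by positivity)
  exact_mod_cast cnt_le' m k

theorem Al_sub_zero {m : ℕ} {x : ℝ} (hx : |x| ≤ 1) (k : ℕ) :
    |Al m x k - Al m 0 k| ≤ 4 ^ k * |x| := by
  unfold Al
  rw [← Finset.sum_sub_distrib]
  refine (Finset.abs_sum_le_sum_abs _ _).trans ?_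
  have h1 : ∀ i ∈ Finset.range (k / (4 * m + 3) + 1),
      |hl m x (k - i * (4 * m + 3)) - hl m 0 (k - i * (4 * m + 3))| ≤ (k : ℝ) * |x| := by
    intro i _
    refine (hl_sub_zero hx _).trans ?_
    refine mul_le_mul_of_nonneg_right ?_ (abs_nonneg _)
    exact_mod_cast Nat.sub_le _ _
  refine (Finset.sum_le_card_nsmul _ _ _ h1).trans ?_
  rw [Finset.card_range, nsmul_eq_mul, ← mul_assoc]
  refine mul_le_mul_of_nonneg_right ?_ (abs_nonneg _)
  have h2 : (k / (4 * m + 3) + 1) * k ≤ 4 ^ k := by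
    have h3 : k < 2 ^ k := Nat.lt_two_pow_self
    have h4 := cnt_le' m k
    calc (k / (4 * m + 3) + 1) * k ≤ 2 ^ k * 2 ^ k := Nat.mul_le_mul (by omega) (by omega)
      _ = 4 ^ k := by rw [← mul_pow]; norm_num
  exact_mod_cast h2

theorem Al_sub {m : ℕ} {x x' : ℝ} (hx : |x| ≤ 1) (hx' : |x'| ≤ 1) (k : ℕ) :
    |Al m x k - Al m x' k| ≤ 8 ^ k * |x - x'| := by
  rcases Nat.eq_zero_or_pos k with rfl | hk
  · rw [Al_zero, Al_zero, sub_self, abs_zero]
    positivity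
  · unfold Al
    rw [← Finset.sum_sub_distrib]
    refine (Finset.abs_sum_le_sum_abs _ _).trans ?_
    have h1 : ∀ i ∈ Finset.range (k / (4 * m + 3) + 1),
        |hl m x (k - i * (4 * m + 3)) - hl m x' (k - i * (4 * m + 3))| ≤
          2 * 4 ^ k * |x - x'| := by
      intro i _
      refine (hl_sub hx hx' _).trans ?_
      refine mul_le_mul_of_nonneg_right ?_ (abs_nonneg _)
      refine mul_le_mul_of_nonneg_left ?_ (by norm_num)
      exact pow_le_pow_right₀ (by norm_num) (Nat.sub_le _ _)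
    refine (Finset.sum_le_card_nsmul _ _ _ h1).trans ?_
    rw [Finset.card_range, nsmul_eq_mul, ← mul_assoc]
    refine mul_le_mul_of_nonneg_right ?_ (abs_nonneg _)
    have h2 : ((2 * (k / (4 * m + 3) + 1) : ℕ) : ℝ) ≤ 2 ^ k := by exact_mod_cast cnt_le m k hk
    push_cast at h2
    have h3 : (8 : ℝ) ^ k = 2 ^ k * 4 ^ k := by rw [← mul_pow]; norm_num
    rw [h3]
    have h4 : (0 : ℝ) < 4 ^ k := by positivity
    push_cast
    nlinarith

theorem t_Loc1 : S_Loc1 :=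
  ⟨fun _ hy j => Uc_le hy j, fun _ _ hy hy' j => (Uc_sub hy hy' j).1, y0_le,
    fun m x => ⟨Al_zero m x, Al_one m x⟩, Al_at_zero, fun _ _ hx k => Al_le hx k,
    fun _ _ hx k => Al_sub_zero hx k, fun _ _ _ hx hx' k => Al_sub hx hx' k⟩

end Pool.Agent.Q251.ET
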