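import Pool.Agent.Q127.ET.Spec2
import Pool.Agent.Q251.ET.Loc

/-! The constant part (lemma job ET9 of the project ET of helper127). -/

set_option autoImplicit false

open Finset MeasureTheory

namespace Pool.Agent.Q251.ET

open Pool.Agent.Q127.ET Pool.Agent.H469R10.HO Pool.Agent.H13R3.EM

/-- the value of the constant part at the powers -/
noncomputable def aK (m k : ℕ) : ℝ := ((k + 1 : ℕ) : ℝ) ^ (-(4 * (m : ℝ) + 3 / 2))

theorem lamH_eq (m : ℕ) : lamH m = ((4 * m + 3 : ℕ) : ℝ) / 2 := by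
  unfold lamH
  push_cast
  ring

theorem lamH_pos (m : ℕ) : 0 < lamH m := by
  unfold lamH
  positivity

theorem pow_kap (m k : ℕ) :
    (((k + 1) ^ (4 * m + 3) : ℕ) : ℝ) ^ (-kap m) = aK m k := by
  have h0 : (0 : ℝ) ≤ ((k + 1 : ℕ) : ℝ) := by positivity
  unfold aK
  rw [Nat.cast_pow, ← Real.rpow_natCast, ← Real.rpow_mul h0]
  congr 1
  have h1 := lam_kap m
  have h2 := lamH_eq m
  have h3 : (((4 * m + 3 : ℕ) : ℝ)) = 2 * lamH m := by rw [h2]; ring
  rw [h3]
  linarith

theorem uu_pow (c : ℝ) (m k : ℕ) :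
    uu c (lamH m) ((k + 1) ^ (4 * m + 3)) = c * ((k + 1 : ℕ) : ℝ) ^ 2 := by
  have h0 : (0 : ℝ) ≤ ((k + 1 : ℕ) : ℝ) := by positivity
  unfold uu
  rw [Nat.cast_pow, ← Real.rpow_natCast, ← Real.rpow_mul h0]
  congr 1
  have h2 := lamH_eq m
  have h3 : (((4 * m + 3 : ℕ) : ℝ)) = 2 * lamH m := by rw [h2]; ring
  rw [h3, mul_one_div, mul_div_cancel_right₀ _ (lamH_pos m).ne']
  norm_num

theorem sum_sq_le {ι : Type} (s : Finset ι) (f : ι → ℝ) (hf : ∀ i ∈ s, 0 ≤ f i) :
    ∑ i ∈ s, f i ^ 2 ≤ (∑ i ∈ s, f i) ^ 2 := by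
  have h1 : ∀ i ∈ s, f i ^ 2 ≤ f i * ∑ j ∈ s, f j := by
    intro i hi
    rw [sq]
    exact mul_le_mul_of_nonneg_left (Finset.single_le_sum hf hi) (hf i hi)
  refine (Finset.sum_le_sum h1).trans ?_
  rw [← Finset.sum_mul, sq]

open Classical in
theorem atc_zero (m n : ℕ) (hn : n ≠ 0) : atc m (fun _ => 0) n =
    if ∃ k, n = (k + 1) ^ (4 * m + 3) then 1 else 0 := by
  unfold atc
  rw [if_neg hn]
  simp only [Al_at_zero]
  split_ifs with h
  · apply Finset.prod_eq_one
    intro p _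
    rw [if_pos]
    obtain ⟨k, rfl⟩ := h
    rw [Nat.factorization_pow]
    exact dvd_mul_right _ _
  · by_contra h2
    apply h
    have h3 : ∀ p ∈ n.primeFactors, (4 * m + 3) ∣ n.factorization p := by
      intro p hp
      by_contra h4
      apply h2
      exact Finset.prod_eq_zero hp (if_neg h4)
    have h4 : ∃ k, n = k ^ (4 * m + 3) := by
      refine ⟨∏ p ∈ n.primeFactors, p ^ (n.factorization p / (4 * m + 3)), ?_⟩
      rw [← Finset.prod_pow]
      conv_lhs => rw [← Nat.prod_factorization_pow_eq_self hn]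
      rw [Nat.prod_factorization_eq_prod_primeFactors]
      refine Finset.prod_congr rfl fun p hp => ?_
      rw [← pow_mul, Nat.div_mul_cancel (h3 p hp)]
    obtain ⟨k, hk⟩ := h4
    have hk0 : k ≠ 0 := by
      rintro rfl
      rw [zero_pow (by omega)] at hk
      exact hn hk
    exact ⟨k - 1, by rw [Nat.sub_add_cancel (Nat.pos_of_ne_zero hk0)]; exact hk⟩

theorem pow_inj (m : ℕ) : Function.Injective fun k : ℕ => (k + 1) ^ (4 * m + 3) := by
  intro a b h
  have := Nat.pow_left_injective (by omega : 4 * m + 3 ≠ 0) h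
  omega

theorem bsT_pow (m k : ℕ) : bsT m ((k + 1) ^ (4 * m + 3)) = if k = 0 then 0 else aK m k := by
  have hn : (k + 1) ^ (4 * m + 3) ≠ 0 := pow_ne_zero _ (by omega)
  unfold bsT
  split_ifs with h1 h2 h2
  · rfl
  · exfalso
    rcases h1 with h1 | h1
    · exact hn h1
    · rw [Nat.squarefree_pow_iff (by omega) (by omega)] at h1
      omega
  · exfalso
    apply h1
    right
    rw [h2, zero_add, one_pow]
    exact squarefree_one
  · rw [atc_zero m _ hn, if_pos ⟨k, rfl⟩, one_mul, pow_kap]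

theorem bsT_off (m n : ℕ) (hn : n ∉ Set.range fun k : ℕ => (k + 1) ^ (4 * m + 3)) :
    bsT m n = 0 := by
  unfold bsT
  split_ifs with h1
  · rfl
  · push Not at h1
    rw [atc_zero m n h1.1, if_neg, zero_mul]
    rintro ⟨k, hk⟩
    exact hn ⟨k, hk.symm⟩

theorem summable_aK (m : ℕ) (hm : 1 ≤ m) : Summable (aK m) := by
  have h1 : Summable fun k : ℕ => (k : ℝ) ^ (-(4 * (m : ℝ) + 3 / 2)) := by
    rw [Real.summable_nat_rpow]
    have : (1 : ℝ) ≤ m := by exact_mod_cast hm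
    linarith
  exact (summable_nat_add_iff 1).2 h1

theorem summable_aK_sq (m : ℕ) (hm : 1 ≤ m) :
    Summable fun k => ((k + 1 : ℕ) : ℝ) ^ 2 * aK m k := by
  have h1 : Summable fun k : ℕ => (k : ℝ) ^ (-(4 * (m : ℝ) + 3 / 2) + 2) := by
    rw [Real.summable_nat_rpow]
    have : (1 : ℝ) ≤ m := by exact_mod_cast hm
    linarith
  refine ((summable_nat_add_iff 1).2 h1).congr fun k => ?_
  unfold aK
  rw [Real.rpow_add (by positivity), mul_comm]
  norm_num

theorem aK_nonneg (m k : ℕ) : 0 ≤ aK m k := by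
  unfold aK
  positivity

theorem cell_le {c : ℝ} (hc : 0 < c) (hc1 : c ≤ 1 / 10) (k : ℕ) :
    ((cell (c * ((k + 1 : ℕ) : ℝ) ^ 2) : ℕ) : ℝ) ≤ ((k + 1 : ℕ) : ℝ) ^ 2 := by
  have h1 : (1 : ℝ) ≤ ((k + 1 : ℕ) : ℝ) ^ 2 := by
    have : (1 : ℝ) ≤ ((k + 1 : ℕ) : ℝ) := by push_cast; linarith [(Nat.cast_nonneg k : (0 : ℝ) ≤ k)]
    nlinarith
  have h2 : (2 : ℝ) / Real.pi ≤ 1 := by
    rw [div_le_one Real.pi_pos]
    linarith [Real.pi_gt_three]
  have h3 : (0 : ℝ) ≤ 2 / Real.pi := by positivity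
  unfold cell
  refine (Nat.floor_le (by positivity)).trans ?_
  have h4 : 2 / Real.pi * (c * ((k + 1 : ℕ) : ℝ) ^ 2) ≤ 1 * (1 / 10 * ((k + 1 : ℕ) : ℝ) ^ 2) :=
    mul_le_mul h2 (mul_le_mul_of_nonneg_right hc1 (by positivity)) (by positivity) (by norm_num)
  linarith

theorem summable_mul (m : ℕ) (φ : ℕ → ℝ)
    (h : Summable fun k : ℕ => φ ((k + 1) ^ (4 * m + 3)) * (if k = 0 then 0 else aK m k)) :
    Summable fun n => φ n * bsT m n := by
  rw [← (pow_inj m).summable_iff (f := fun n => φ n * bsT m n)]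
  · refine h.congr fun k => ?_
    simp only [Function.comp]
    rw [bsT_pow]
  · intro n hn
    rw [bsT_off m n hn, mul_zero]

theorem tsum_mul (m : ℕ) (φ : ℕ → ℝ) :
    ∑' n, bsT m n * φ n = ∑' k : ℕ, (if k = 0 then 0 else aK m k * φ ((k + 1) ^ (4 * m + 3))) := by
  rw [← (pow_inj m).tsum_eq (f := fun n => bsT m n * φ n)]
  · refine tsum_congr fun k => ?_
    rw [bsT_pow]
    split_ifs
    · rw [zero_mul]
    · rfl
  · intro n hn
    by_contra h
    apply hn
    change bsT m n * φ n = 0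
    rw [bsT_off m n h, zero_mul]

theorem base_one (c : ℝ) (m : ℕ) (hc : 0 < c) (hc1 : c ≤ 1 / 10) (hm : 4 ≤ m) :
    ∃ D : ℝ, 0 ≤ D ∧ ∀ S : Finset ℕ, QQ (WW c) S (jj c (lamH m)) (bsT m) ≤ D := by
  have hs : Summable fun n => (1 + (jj c (lamH m) n : ℝ)) * |bsT m n| := by
    have h1 : (fun n => (1 + (jj c (lamH m) n : ℝ)) * |bsT m n|) =
        fun n => |(1 + (jj c (lamH m) n : ℝ)) * bsT m n| := by
      funext n
      rw [abs_mul, abs_of_nonneg (by positivity : (0 : ℝ) ≤ 1 + (jj c (lamH m) n : ℝ))]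
    rw [h1]
    apply Summable.abs
    apply summable_mul m
    refine Summable.of_nonneg_of_le (f := fun k => 2 * (((k + 1 : ℕ) : ℝ) ^ 2 * aK m k)) ?_ ?_
      ((summable_aK_sq m (by omega)).mul_left 2)
    · intro k
      split_ifs
      · rw [mul_zero]
      · exact mul_nonneg (by positivity) (aK_nonneg m k)
    · intro k
      have h2 := aK_nonneg m k
      have h3 : (1 : ℝ) ≤ ((k + 1 : ℕ) : ℝ) ^ 2 := by
        have : (1 : ℝ) ≤ ((k + 1 : ℕ) : ℝ) := by
          push_cast; linarith [(Nat.cast_nonneg k : (0 : ℝ) ≤ k)]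
        nlinarith
      have h4 : (1 + (jj c (lamH m) ((k + 1) ^ (4 * m + 3)) : ℝ)) ≤ 2 * ((k + 1 : ℕ) : ℝ) ^ 2 := by
        unfold jj
        rw [uu_pow]
        have := cell_le hc hc1 k
        linarith
      split_ifs
      · rw [mul_zero]
        positivity
      · rw [← mul_assoc]
        exact mul_le_mul_of_nonneg_right h4 h2
  refine ⟨256 / c * (∑' n, (1 + (jj c (lamH m) n : ℝ)) * |bsT m n|) ^ 2, by positivity,
    fun S => ?_⟩
  unfold QQ
  have hterm : ∀ y ∈ S.image (jj c (lamH m)),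
      WW c y * (∑ i ∈ S.filter (fun i => jj c (lamH m) i = y), |bsT m i|) ^ 2 ≤
      256 / c * (∑ i ∈ S.filter (fun i => jj c (lamH m) i = y),
        (1 + (jj c (lamH m) i : ℝ)) * |bsT m i|) ^ 2 := by
    intro y _
    have h1 : ∑ i ∈ S.filter (fun i => jj c (lamH m) i = y),
        (1 + (jj c (lamH m) i : ℝ)) * |bsT m i| =
        (1 + (y : ℝ)) * ∑ i ∈ S.filter (fun i => jj c (lamH m) i = y), |bsT m i| := by
      rw [Finset.mul_sum]
      refine Finset.sum_congr rfl fun i hi => ?_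
      rw [(Finset.mem_filter.1 hi).2]
    rw [h1, mul_pow, ← mul_assoc]
    exact mul_le_mul_of_nonneg_right
      (Pool.Agent.H5R3.T469N.WW_le hc (by linarith) y) (sq_nonneg _)
  refine (Finset.sum_le_sum hterm).trans ?_
  rw [← Finset.mul_sum]
  refine mul_le_mul_of_nonneg_left ?_ (by positivity)
  have h2 : ∀ y ∈ S.image (jj c (lamH m)), 0 ≤ ∑ i ∈ S.filter (fun i => jj c (lamH m) i = y),
        (1 + (jj c (lamH m) i : ℝ)) * |bsT m i| :=
    fun y _ => Finset.sum_nonneg fun i _ => by positivity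
  refine (sum_sq_le _ _ h2).trans ?_
  have h3 : ∑ y ∈ S.image (jj c (lamH m)), ∑ i ∈ S.filter (fun i => jj c (lamH m) i = y),
        (1 + (jj c (lamH m) i : ℝ)) * |bsT m i| = ∑ i ∈ S, (1 + (jj c (lamH m) i : ℝ)) * |bsT m i| :=
    Finset.sum_fiberwise_of_maps_to (fun i hi => Finset.mem_image_of_mem _ hi) _
  rw [h3]
  refine pow_le_pow_left₀ (Finset.sum_nonneg fun i _ => by positivity) ?_ 2
  exact hs.sum_le_tsum S fun i _ => by positivity

theorem base_two (c : ℝ) (m : ℕ) (hm : 4 ≤ m) : Summable (fun n => |bsT m n|) ∧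
    ∀ x : ℝ, sT c m x = ((Real.cos (c * x) - 1) + ∑' n, bsT m n * Real.cos (uu c (lamH m) n * x)) -
      ∑' n, bsT m n := by
  have hsa := summable_aK m (by omega)
  constructor
  · apply Summable.abs
    have h1 := summable_mul m (fun _ => 1) (by
      refine Summable.of_nonneg_of_le (f := aK m) ?_ ?_ hsa
      · intro k
        split_ifs
        · simp
        · rw [one_mul]
          exact aK_nonneg m k
      · intro k
        split_ifs
        · rw [mul_zero]
          exact aK_nonneg m k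
        · rw [one_mul])
    refine h1.congr fun n => ?_
    rw [one_mul]
  · intro x
    have h1 : sT c m x = ∑' k : ℕ, (aK m k * Real.cos (c * ((k + 1 : ℕ) : ℝ) ^ 2 * x) - aK m k) := by
      unfold sT s0 aK
      refine tsum_congr fun k => ?_
      ring
    have hsc : Summable fun k : ℕ => aK m k * Real.cos (c * ((k + 1 : ℕ) : ℝ) ^ 2 * x) := by
      refine Summable.of_norm_bounded hsa fun k => ?_
      rw [Real.norm_eq_abs, abs_mul, abs_of_nonneg (aK_nonneg m k)]
      exact mul_le_of_le_one_right (aK_nonneg m k) (Real.abs_cos_le_one _)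
    have ha0 : aK m 0 = 1 := by
      unfold aK
      simp
    rw [h1, hsc.tsum_sub hsa, hsc.tsum_eq_add_tsum_ite 0, hsa.tsum_eq_add_tsum_ite 0, ha0]
    have h2 : ∑' n, bsT m n * Real.cos (uu c (lamH m) n * x) =
        ∑' k : ℕ, if k = 0 then 0 else aK m k * Real.cos (c * ((k + 1 : ℕ) : ℝ) ^ 2 * x) := by
      rw [tsum_mul m fun n => Real.cos (uu c (lamH m) n * x)]
      refine tsum_congr fun k => ?_
      rw [uu_pow]
    have h3 : ∑' n, bsT m n = ∑' k : ℕ, if k = 0 then 0 else aK m k := by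
      have h4 := tsum_mul m fun _ => 1
      simp only [mul_one] at h4
      exact h4
    rw [h2, h3]
    push_cast
    ring_nf

theorem t_Base : S_Base :=
  ⟨fun c m hc hc1 hm => base_one c m hc hc1 hm, fun c m _ hm => base_two c m hm⟩

end Pool.Agent.Q251.ET
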